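import Pool.Agent.Run7.h643.MW.Hyp

/-!
# The Grothendieck period conjecture in bounded degree for products of hyperelliptic curves chosen in successive windows

`f_1, …, f_s ∈ ℚ[X]` are monic of the same degree `n = 2g` with `n` distinct real roots, all different from `0`, and
`C_j(z)` is the curve `y² = f_j(x) (x - z)` of genus `g` (the `f_j` may be equal). The curves are chosen in `s` windows, one
window after the other: in the window number `j` one chooses `k` fibres `C_j(1 / (t_j - G u))`, `1 ≤ u ≤ H_j`. The place `t_j`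
and the size `H_j` of the window number `j` may be arbitrary functions of the choices in the windows before; only
`t_j ≥ (H_j + 2)^((δ + 2)^C)` is required, so the windows may be in any position to each other, they may overlap or coincide,
and there is no relation between the sizes of the numbers `t_1, …, t_s`.

At each step at most `q + trdeg + j k n (n + 1) / 2` numbers `u` are forbidden, where `trdeg` is the transcendence degree
of the periods of the `s` central fibres `C_j(0)` and `q` is the number of arbitrary complex constants `w`; the forbidden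
set depends only on the choices made before. For all the other choices all the relations of degree `≤ δ` over
number fields of degree `≤ δ` (no bound on the height of the coefficients) between the periods of the `s k` chosen curves
hold on the torsor of the product of the curves, and all such relations between these periods, the periods of the central
fibres, `2πi` and the constants `w` hold at all the points of this torsor with multiplier `2πi`.
-/

set_option autoImplicit false

open Polynomial NumberField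

namespace Pool.Agent.Run7.h643.Kept.HypWindows

variable {n s k : ℕ} {ι : Type}

/-- the branch points: `t` inserted at place `m` in the sequence of the `a i` -/
noncomputable def branch (a : Fin n → ℝ) (m : Fin (n + 1)) (t : ℝ) : Fin (n + 1) → ℝ :=
  Fin.insertNth (α := fun _ => ℝ) m t a

/-- the period `∮ x^j dx / y`, `y² = ∏ (x - e i)`, over the loop around the segment `[e l, e (l + 1)]`, that is twice
the integral over the segment (principal branch of the square root) -/
noncomputable def period (e : Fin (n + 1) → ℝ) (l j : Fin n) : ℂ :=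
  2 * ∫ x in (e l.castSucc)..(e l.succ), (x : ℂ) ^ (j : ℕ) / (((∏ i, (x - e i) : ℝ) : ℂ) ^ (1 / 2 : ℂ))

/-- the polarisation in terms of the forms `x^j dx / y`, `y² = F(x) = ∑ c_k x^k`: entries `(i - j)/2 * c_(i+j+2)` -/
noncomputable def polDR (n : ℕ) (F : ℚ[X]) : Matrix (Fin n) (Fin n) ℚ :=
  Matrix.of fun i j => (((i : ℕ) : ℚ) - ((j : ℕ) : ℚ)) / 2 * F.coeff ((i : ℕ) + (j : ℕ) + 2)

/-- the polarisation in terms of the loops: `2 (-1)^r` at `(r, s)`, `|r - s| = 1` -/
def polB (n : ℕ) : Matrix (Fin n) (Fin n) ℚ :=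
  Matrix.of fun r s => if (r : ℕ) = s + 1 ∨ (s : ℕ) = r + 1 then 2 * (-1) ^ (r : ℕ) else 0

/-- the point with coordinates the entries of the matrices `X j` and `lam` -/
def point (X : ι → Matrix (Fin n) (Fin n) ℂ) (lam : ℂ) : Option (ι × Fin n × Fin n) → ℂ :=
  fun o => o.elim lam fun x => X x.1 x.2.1 x.2.2

/-- the entries of the matrices `X j` -/
def entries (X : ι → Matrix (Fin n) (Fin n) ℂ) : ι × Fin n × Fin n → ℂ := fun x => X x.1 x.2.1 x.2.2

/-- the complex points of the torsor of the curves `y² = F_j(x)`: matrices `X_j` and `lam ≠ 0` with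
`X_j polDR(F_j) X_jᵀ = lam polB` (a torsor under `{(g_j) : g_j ∈ GSp_(2g), equal multipliers}`) -/
def Torsor (F : ι → ℚ[X]) : Set ((ι → Matrix (Fin n) (Fin n) ℂ) × ℂ) :=
  {x | x.2 ≠ 0 ∧ ∀ j, x.1 j * (polDR n (F j)).map (algebraMap ℚ ℂ) * (x.1 j).transpose =
    x.2 • (polB n).map (algebraMap ℚ ℂ)}

/-- every polynomial `P` of degree `≤ D` with coefficients in a number field of degree `≤ d` (any such field, no bound
on the height of the coefficients) with `P(c) = 0` vanishes on the torsor -/
def DegreeGPC (F : ι → ℚ[X]) (c : Option (ι × Fin n × Fin n) → ℂ) (d D : ℕ) : Prop :=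
  ∀ (K : Type) [Field K] [NumberField K] (φ : K →+* ℂ) (P : MvPolynomial (Option (ι × Fin n × Fin n)) K),
    Module.finrank ℚ K ≤ d → P.totalDegree ≤ D → (P.map φ).eval c = 0 →
    ∀ x ∈ Torsor (n := n) F, (P.map φ).eval (point x.1 x.2) = 0

/-- relations with the constants `w` and `c0`: every polynomial `P` of degree `≤ D` with coefficients in a number field of
degree `≤ d` with `P(w, c0, Y) = 0` vanishes at `(w, c0, x)` for all the points `x` of the torsor with `lam = 2πi` -/
def RelativeGPC {q : ℕ} (w : Fin q → ℂ) (c0 : Option (Fin s × Fin n × Fin n) → ℂ) (F : ι → ℚ[X])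
    (Y : ι → Matrix (Fin n) (Fin n) ℂ) (d D : ℕ) : Prop :=
  ∀ (K : Type) [Field K] [NumberField K] (φ : K →+* ℂ)
    (P : MvPolynomial ((Fin q ⊕ Option (Fin s × Fin n × Fin n)) ⊕ ι × Fin n × Fin n) K),
    Module.finrank ℚ K ≤ d → P.totalDegree ≤ D → (P.map φ).eval (Sum.elim (Sum.elim w c0) (entries Y)) = 0 →
    ∀ x ∈ Torsor (n := n) F, x.2 = 2 * Real.pi * Complex.I →
      (P.map φ).eval (Sum.elim (Sum.elim w c0) (entries x.1)) = 0

/-- `2πi` and the periods of the central fibres `y² = f_j(x) x`, `j < s` -/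
noncomputable def central (a : Fin s → Fin n → ℝ) (m : Fin s → Fin (n + 1)) : Option (Fin s × Fin n × Fin n) → ℂ :=
  fun o => o.elim (2 * Real.pi * Complex.I) fun x => period (branch (a x.1) (m x.1) 0) x.2.1 x.2.2

/-- the field generated by `2πi` and the periods of the central fibres -/
noncomputable def centralField (a : Fin s → Fin n → ℝ) (m : Fin s → Fin (n + 1)) : IntermediateField ℚ ℂ :=
  IntermediateField.adjoin ℚ (Set.range (central a m))

/-- The statement for the tuple of the fibres `y² = f_j(x) (x - 1 / t_ji)`, `j < s`, `i < k`: the `1 / t_ji` are in the gap of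
`0`, the point formed by the period matrices of the fibres and by `2πi` is on the torsor, all the relations of degree `≤ δ`
over number fields of degree `≤ δ` which hold at the point hold on the torsor, and all the relations of degree `≤ δ` over
number fields of degree `≤ δ` between the periods of the fibres, the numbers `w`, `2πi` and the periods of the central
fibres `y² = f_j(x) x` hold at all the points of the torsor with `lam = 2πi`. -/
def Good {q : ℕ} (δ : ℕ) (w : Fin q → ℂ) (a : Fin s → Fin n → ℝ) (m : Fin s → Fin (n + 1)) (f : Fin s → ℚ[X])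
    (t : Fin s → Fin k → ℕ) : Prop :=
  (∀ j i, StrictMono (branch (a j) (m j) (1 / (t j i : ℝ)))) ∧
    ((fun l : Fin s × Fin k => Matrix.of (period (branch (a l.1) (m l.1) (1 / (t l.1 l.2 : ℝ))))),
      (2 * Real.pi * Complex.I : ℂ)) ∈
      Torsor (n := n) (fun l : Fin s × Fin k => f l.1 * (X - C (1 / (t l.1 l.2 : ℚ)))) ∧
    DegreeGPC (fun l : Fin s × Fin k => f l.1 * (X - C (1 / (t l.1 l.2 : ℚ))))
      (point (fun l => Matrix.of (period (branch (a l.1) (m l.1) (1 / (t l.1 l.2 : ℝ))))) (2 * Real.pi * Complex.I))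
      δ δ ∧
    RelativeGPC w (central a m) (fun l : Fin s × Fin k => f l.1 * (X - C (1 / (t l.1 l.2 : ℚ))))
      (fun l => Matrix.of (period (branch (a l.1) (m l.1) (1 / (t l.1 l.2 : ℝ))))) δ δ

theorem good_conv {q N : ℕ} (ε : Fin N ≃ Fin s × Fin k) {δ : ℕ} {w : Fin q → ℂ} {a : Fin s → Fin n → ℝ}
    {m : Fin s → Fin (n + 1)} {f : Fin s → ℚ[X]} {t : Fin s → Fin k → ℕ}
    (h : Pool.Agent.R351.GD.Hy.GoodY δ w (fun l => a (ε l).1) (fun l => m (ε l).1) (fun l => f (ε l).1)
      (fun l => t (ε l).1 (ε l).2)) : Good δ w a m f t := by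
  obtain ⟨h1, h2, h3, h4⟩ := h
  have hT : ∀ x : (Fin s × Fin k → Matrix (Fin n) (Fin n) ℂ) × ℂ,
      x ∈ Torsor (n := n) (fun l : Fin s × Fin k => f l.1 * (X - C (1 / (t l.1 l.2 : ℚ)))) ↔
      ((fun l => x.1 (ε l), x.2) : (Fin N → Matrix (Fin n) (Fin n) ℂ) × ℂ) ∈ Pool.Agent.Y118.HP.TorF (n := n)
        (fun l => f (ε l).1 * (X - C (1 / (t (ε l).1 (ε l).2 : ℚ)))) := by
    intro x
    constructor
    · rintro ⟨hx1, hx2⟩
      exact ⟨hx1, fun l => hx2 (ε l)⟩
    · rintro ⟨hx1, hx2⟩
      refine ⟨hx1, fun l => ?_⟩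
      have := hx2 (ε.symm l)
      simp only [Equiv.apply_symm_apply] at this
      exact this
  refine ⟨fun j i => ?_, (hT _).2 h2, ?_, ?_⟩
  · have := h1 (ε.symm (j, i))
    simp only [Equiv.apply_symm_apply] at this
    exact this
  · intro K _ _ φ P hK hP hP0 x hx
    have hv : ∀ (Z : Fin s × Fin k → Matrix (Fin n) (Fin n) ℂ) (lam : ℂ),
        ((MvPolynomial.rename (Option.map fun y : (Fin s × Fin k) × Fin n × Fin n => (ε.symm y.1, y.2)) P).map φ).eval
          (Pool.Agent.Y118.HP.pt (fun l => Z (ε l)) lam) = (P.map φ).eval (point Z lam) := by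
      intro Z lam
      rw [MvPolynomial.map_rename, MvPolynomial.eval_rename]
      congr 2
      funext y
      rcases y with _ | y
      · rfl
      · show Z (ε (ε.symm y.1)) y.2.1 y.2.2 = Z y.1 y.2.1 y.2.2
        rw [Equiv.apply_symm_apply]
    have h6 := (hv (fun l => Matrix.of (period (branch (a l.1) (m l.1) (1 / (t l.1 l.2 : ℝ)))))
      (2 * Real.pi * Complex.I)).trans hP0
    have h5 := h3 K φ _ hK ((MvPolynomial.totalDegree_rename_le _ _).trans hP) h6
      (fun l => x.1 (ε l), x.2) ((hT x).1 hx)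
    exact (hv x.1 x.2).symm.trans h5
  · intro K _ _ φ P hK hP hP0 x hx hx2
    have hv : ∀ Z : Fin s × Fin k → Matrix (Fin n) (Fin n) ℂ, (∃ l : Fin s × Fin k, True) →
        ∀ σ : Fin s → Fin N, (∀ j, (ε (σ j)).1 = j) →
        ((MvPolynomial.rename (Sum.map (Sum.map id (Option.map fun y : Fin s × Fin n × Fin n => (σ y.1, y.2)))
          fun y : (Fin s × Fin k) × Fin n × Fin n => (ε.symm y.1, y.2)) P).map φ).eval
          (Sum.elim (Sum.elim w (Pool.Agent.Y118.HP.pt (fun j => Matrix.of (Pool.Agent.Y118.HP.cper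
            (Pool.Agent.Y118.HP.er (a (ε j).1) (m (ε j).1) 0))) (2 * Real.pi * Complex.I)))
            fun y => Z (ε y.1) y.2.1 y.2.2) =
        (P.map φ).eval (Sum.elim (Sum.elim w (central a m)) (entries Z)) := by
      intro Z _ σ hσ
      rw [MvPolynomial.map_rename, MvPolynomial.eval_rename]
      congr 2
      funext y
      rcases y with ((y | (_ | y)) | y)
      · rfl
      · rfl
      · show Pool.Agent.Y118.HP.cper (Pool.Agent.Y118.HP.er (a (ε (σ y.1)).1) (m (ε (σ y.1)).1) 0) y.2.1 y.2.2 =
          period (branch (a y.1) (m y.1) 0) y.2.1 y.2.2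
        rw [hσ]
        rfl
      · show Z (ε (ε.symm y.1)) y.2.1 y.2.2 = Z y.1 y.2.1 y.2.2
        rw [Equiv.apply_symm_apply]
    rcases Nat.eq_zero_or_pos k with hk | hk
    · subst hk
      rw [← hP0]
      congr 2
      funext y
      rcases y with y | y
      · rfl
      · exact y.1.2.elim0
    · have hσ : ∀ j : Fin s, (ε (ε.symm (j, ⟨0, hk⟩))).1 = j := fun j => by rw [Equiv.apply_symm_apply]
      rcases Nat.eq_zero_or_pos s with hs | hs
      · subst hs
        rw [← hP0]
        congr 2
        funext y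
        rcases y with y | y
        · rfl
        · exact y.1.1.elim0
      · have hex : ∃ l : Fin s × Fin k, True := ⟨(⟨0, hs⟩, ⟨0, hk⟩), trivial⟩
        have h6 := (hv (fun l => Matrix.of (period (branch (a l.1) (m l.1) (1 / (t l.1 l.2 : ℝ))))) hex _ hσ).trans hP0
        have h5 := h4 K φ _ hK ((MvPolynomial.totalDegree_rename_le _ _).trans hP) h6
          (fun l => x.1 (ε l), x.2) ((hT x).1 hx) hx2
        exact (hv x.1 hex _ hσ).symm.trans h5

/-- Let `f_j ∈ ℚ[X]`, `j < s`, be monic of even degree `n` with distinct real roots `a_j`, all different from `0`; `m_j` is the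
place of `0` among the roots. There is `G_0` such that for all `G ≥ G_0`, all `k` and `q` there is `C` with the following
property. Let `δ` be an integer, `w ∈ ℂ^q`, and let `H_j`, `t_j` be functions of the choices `u_i : Fin k → ℕ`, `i < j`, in the
windows before. Then there are sets `S_j`, which depend only on the choices in the windows before, of at most
`q + trdeg + j k n (n + 1) / 2` numbers, such that for all choices `u` with `t_j ≥ (H_j + 2)^((δ + 2)^C)`, `u_j` injective,
`1 ≤ u_ji ≤ H_j` and `u_ji ∉ S_j` the statement of degree `δ` holds for the product of the `s k` curves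
`y² = f_j(x) (x - 1 / (t_j - G u_ji))`. -/
theorem result (hn : Even n) (s : ℕ) (a : Fin s → Fin n → ℝ) (f : Fin s → ℚ[X])
    (hf : ∀ j, (f j).map (algebraMap ℚ ℝ) = ∏ i, (X - C (a j i))) (m : Fin s → Fin (n + 1))
    (h0 : ∀ j, StrictMono (branch (a j) (m j) 0)) :
    ∃ G₀ : ℕ, ∀ G : ℕ, G₀ ≤ G → ∀ k q : ℕ, ∃ C₀ : ℕ, ∀ (δ : ℕ) (H t : Fin s → (Fin s → Fin k → ℕ) → ℕ),
      (∀ j u u', (∀ i, i < j → u i = u' i) → H j u = H j u' ∧ t j u = t j u') →
      ∀ w : Fin q → ℂ, ∃ S : Fin s → (Fin s → Fin k → ℕ) → Finset ℕ,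
        (∀ j u, ((S j u).card : Cardinal) ≤ q + Algebra.trdeg ℚ (centralField a m) +
          (j * k * (n * (n + 1) / 2) : ℕ)) ∧
        (∀ j u, 2 * (S j u).card ≤ 2 * q + s * (n * (n + 1) + 2) + j * k * (n * (n + 1))) ∧
        (∀ j u u', (∀ i, i < j → u i = u' i) → S j u = S j u') ∧
        ∀ u : Fin s → Fin k → ℕ, (∀ j, (H j u + 2) ^ (δ + 2) ^ C₀ ≤ t j u) → (∀ j, Function.Injective (u j)) →
          (∀ j i, 1 ≤ u j i ∧ u j i ≤ H j u ∧ u j i ∉ S j u) →
          (∀ j i, G * u j i < t j u) ∧ Good δ w a m f fun j i => t j u - G * u j i := by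
  obtain ⟨G₀, h1⟩ := Pool.Agent.Run7.h643.MX.hypwin hn s a f hf m h0
  refine ⟨G₀, fun G hG k q => ?_⟩
  obtain ⟨C₀, h2⟩ := h1 G hG k q (s * k) finProdFinEquiv.symm
  refine ⟨C₀, fun δ H t hdep w => ?_⟩
  obtain ⟨S, hS1, hS2, hS3, h3⟩ := h2 δ H t hdep w
  have hrange : Set.range (Pool.Agent.Y118.HP.pt (fun j => Matrix.of (Pool.Agent.Y118.HP.cper
      (Pool.Agent.Y118.HP.er (a j) (m j) 0))) (2 * Real.pi * Complex.I)) = Set.range (central a m) := by
    congr 1
  rw [hrange] at hS2
  refine ⟨S, hS2, hS1, hS3, fun u hu hinj huS => ?_⟩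
  obtain ⟨h4, h5⟩ := h3 u hu hinj huS
  exact ⟨h4, good_conv _ h5⟩

end Pool.Agent.Run7.h643.Kept.HypWindows
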