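import Mathlib
import Pool.Agent.Run7.h643.MW.Count

/-!
# Logarithms of algebraic numbers chosen one after the other in windows

Let `w_1, …, w_q` be arbitrary complex numbers. We choose algebraic numbers in `t` steps. In step `j` we are given an
algebraic number `ξ_j` of degree at most `m` and height at most `|ξ_j| ^ A`, and a bound `H_j` with
`(H_j + 2) ^ ((δ + 2) ^ C) ≤ |ξ_j|`; both `ξ_j` and `H_j` may depend on all numbers which have been chosen before. We
choose `r` distinct numbers `ξ_j + β_{j,1}, …, ξ_j + β_{j,r}` in the window around `ξ_j` which consists of the `ξ_j + β`,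
`β ≠ 0` of degree at most `d` and height at most `H_j`.

(1) In step `j` (`j = 0, …, t - 1`) there are at most `q + r j + 2` forbidden numbers, which depend only on the numbers
chosen before. If they are avoided, then arbitrary logarithms of all `t r` numbers satisfy no relation of degree at
most `δ` with coefficients which are polynomials in `w_1, …, w_q` over number fields of degree at most `δ`, except for
those relations which are identities after the substitution of `w`. The exponent `C` depends only on
`t, q, r, d, m, A`.

(2) Let `N_j = N_j (h_1, …, h_{j-1})` be arbitrary functions with integral values which are at least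
`(H + 2) ^ ((δ + 2) ^ C)`. Of the `H ^ t` tuples `h` in `[1, H] ^ t` at most `t (q + t + 1) H ^ (t - 1)` are such that
some logarithms of `N_1 + h_1, …, N_t + h_t` satisfy a nontrivial relation of degree at most `δ` over `w`, in the same
sense. In particular the exceptional tuples of integers (for `w` fixed) have density at most `t (q + t + 1) / H` in every
box with sides of length `H` in the region `n_j ≥ (H + 2) ^ ((δ + 2) ^ C)`; here `H` may be a constant. The same is true for
tuples in thin sets, like the pairs `(n, n + h)` or `(n, n ^ n + h)` with `n` and `h` in intervals of length `H`.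

For `q = 0` a relation of this kind is a nonzero polynomial over a number field which vanishes at the logarithms.

For one window (`t = 1`) part (1) is the theorem `Pool.Agent.R351.GD.multi_window` of the starting files, whose engine
`Pool.Agent.R351.GD.windowP_exp` is used here (Siegel's method for the functions `log (1 + β x)` with unknown constants).
New is the passage to several windows in arbitrary position: the constants of a step contain the logarithms of the
numbers chosen before. The starting files (`Pool.Agent.R351.GD.int_tuples`) count the exceptional tuples in the whole box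
`[1, T] ^ t`: at most `T ^ (t - 1 / (δ + 2) ^ C)` of them, up to a constant. This follows from (2) by covering with small
boxes; the bounds for single small boxes and for thin sets do not follow from it.
-/

set_option autoImplicit false

namespace Pool.Agent.Run7.h643.Kept.LogWindows

/-- `z` is a root of a nonzero polynomial with integral coefficients of absolute value at most `X`, of degree at most
`m`. -/
def IsBounded (m : ℕ) (X : ℝ) (z : ℂ) : Prop :=
  ∃ p : Polynomial ℤ, p ≠ 0 ∧ p.natDegree ≤ m ∧ (∀ j, |(p.coeff j : ℝ)| ≤ X) ∧ Polynomial.aeval z p = 0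

/-- The numbers `x` satisfy no nontrivial relation of degree at most `δ` over the constants `w`: if a polynomial `P` of
total degree at most `δ` over a number field of degree at most `δ` vanishes at `(w, x)`, then `P (w, X)` is the zero
polynomial. -/
def Free (δ : ℕ) {q : ℕ} {ι : Type} (w : Fin q → ℂ) (x : ι → ℂ) : Prop :=
  ∀ K : IntermediateField ℚ ℂ, FiniteDimensional ℚ K → Module.finrank ℚ K ≤ δ →
    ∀ P : MvPolynomial (Fin q ⊕ ι) K, P.totalDegree ≤ δ → MvPolynomial.aeval (Sum.elim w x) P = 0 →
      MvPolynomial.aeval (Sum.elim (fun a => MvPolynomial.C (w a)) MvPolynomial.X) P = (0 : MvPolynomial ι ℂ)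

open Classical in
/-- **Main result.** -/
theorem result (t q r d m A : ℕ) : ∃ C : ℕ,
    (∀ (δ : ℕ) (ξ : Fin t → (Fin t → Fin r → ℂ) → ℂ) (H : Fin t → (Fin t → Fin r → ℂ) → ℕ),
      (∀ j β β', (∀ i, i < j → β i = β' i) → ξ j β = ξ j β' ∧ H j β = H j β') → ∀ w : Fin q → ℂ,
      ∃ S : Fin t → (Fin t → Fin r → ℂ) → Finset ℂ,
        (∀ j β, (S j β).card ≤ q + r * j + 2) ∧
        (∀ j β β', (∀ i, i < j → β i = β' i) → S j β = S j β') ∧
        ∀ β : Fin t → Fin r → ℂ,
          (∀ j, ((H j β : ℝ) + 2) ^ ((δ + 2) ^ C) ≤ ‖ξ j β‖) →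
          (∀ j, IsBounded m (‖ξ j β‖ ^ A) (ξ j β)) →
          (∀ j, Function.Injective (β j)) →
          (∀ j i, β j i ∉ S j β ∧ β j i ≠ 0 ∧ IsBounded d (H j β) (β j i)) →
          ∀ x : Fin t → Fin r → ℂ, (∀ j i, Complex.exp (x j i) = ξ j β + β j i) →
            Free δ w fun p : Fin t × Fin r => x p.1 p.2) ∧
    (∀ (δ H : ℕ) (N : Fin t → (Fin t → ℕ) → ℕ),
      (∀ j h h', (∀ i, i < j → h i = h' i) → N j h = N j h') →
      (∀ j h, (H + 2) ^ ((δ + 2) ^ C) ≤ N j h) → ∀ w : Fin q → ℂ,
      ((Fintype.piFinset fun _ : Fin t => Finset.Icc 1 H).filter fun h =>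
        ∃ x : Fin t → ℂ, (∀ j, Complex.exp (x j) = N j h + h j) ∧ ¬ Free δ w x).card ≤
          t * (q + t + 1) * H ^ (t - 1)) := by
  obtain ⟨C₁, h1⟩ := Pool.Agent.Run7.h643.MW.windows t q r d m A
  obtain ⟨C₂, h2⟩ := Pool.Agent.Run7.h643.MW.integers t q
  refine ⟨C₁ + C₂, fun δ ξ H hdep w => ?_, fun δ H N hN hNH w => ?_⟩
  · obtain ⟨S, hS1, hS2, hS3⟩ := h1 δ ξ H hdep w
    refine ⟨S, hS1, hS2, fun β hξ hHt hinj hβ x hx => ?_⟩
    refine hS3 β (fun j => ?_) hHt hinj (fun j i => ⟨(hβ j i).1, (hβ j i).2.1, ?_⟩) x hx
    · have hH : (1 : ℝ) ≤ (H j β : ℝ) + 2 := by linarith [(Nat.cast_nonneg (H j β) : (0 : ℝ) ≤ H j β)]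
      exact (pow_le_pow_right₀ hH (Nat.pow_le_pow_right (by omega) (by omega))).trans (hξ j)
    · obtain ⟨p, hp0, hpd, hpc, hpz⟩ := (hβ j i).2.2
      exact ⟨p, hp0, hpd, fun l => by exact_mod_cast hpc l, hpz⟩
  · refine h2 δ H N hN (fun j h => ?_) w
    exact (Nat.pow_le_pow_right (by omega) (Nat.pow_le_pow_right (by omega) (by omega))).trans (hNH j h)

end Pool.Agent.Run7.h643.Kept.LogWindows
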