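import Mathlib
import Pool.Agent.Run7.h643.MW.Sch

/-!
# Schanuel's conjecture for translates by logarithms of algebraic numbers chosen one after the other

Let `z` be any point of `ℂⁿ`, `n = t r`, and let `w_1, …, w_q` be arbitrary complex numbers. We choose algebraic numbers in
`t` steps. In step `j` we are given an algebraic number `ξ_j` of degree at most `m` and height at most `|ξ_j| ^ A`, and a
bound `H_j` with `(H_j + 2) ^ ((δ + 2) ^ C) ≤ |ξ_j|`; both `ξ_j` and `H_j` may depend on all numbers which have been chosen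
before. We choose `r` distinct numbers `α_{j,i} = ξ_j + β_{j,i}` in the window around `ξ_j` which consists of the `ξ_j + β`,
`β ≠ 0` of degree at most `m` and height at most `H_j`, and consider the translates `x_{j,i} = z_{j,i} + log α_{j,i}`, for
any choice of the logarithms.

(1) In step `j` (`j = 0, …, t - 1`) there are at most `q + 2 n + r j + 2` forbidden numbers, which depend only on the
numbers chosen before. If they are avoided, then the `n` numbers `x_{j,i}` satisfy Schanuel's conjecture up to degree
`δ` in the following strong sense: they satisfy no relation of degree at most `δ` over the field generated by their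
exponentials `exp(x_{j,i}) = exp(z_{j,i}) α_{j,i}` and by `w_1, …, w_q`, whatever this field is. The exponent `C` depends
only on `t, q, r, m, A`.

(2) Let `N_j = N_j (h_1, …, h_{j-1})` be arbitrary functions with integral values which are at least
`(H + 2) ^ ((δ + 2) ^ C)`. Of the `H ^ t` tuples `h` in `[1, H] ^ t` at most `t (q + 3 t + 1) H ^ (t - 1)` are such that
some translate `x_j = z_j + log (N_j + h_j)` does not have this property. So for every `z` and `w` the exceptional
tuples of integers have density at most `t (q + 3 t + 1) / H` in every box with sides of length `H` in the region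
`n_j ≥ (H + 2) ^ ((δ + 2) ^ C)`.

For one window (`t = 1`) part (1) is the starting result `GrowingDegreeWindows` on this problem, with the same number
of exceptions. New is the passage to several windows in arbitrary position. The engine is
`Pool.Agent.R351.GD.windowP_exp` of the starting library (Siegel's method for the functions `log (1 + β x)` with
unknown constants); see also `MP_60829e_nt.SuccessiveWindows`.
-/

set_option autoImplicit false

namespace Pool.Agent.Run7.h643.Kept.SchanuelWindows

/-- `z` is a root of a nonzero polynomial with integral coefficients of absolute value at most `X`, of degree at most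
`m`. -/
def IsBounded (m : ℕ) (X : ℝ) (z : ℂ) : Prop :=
  ∃ p : Polynomial ℤ, p ≠ 0 ∧ p.natDegree ≤ m ∧ (∀ j, |(p.coeff j : ℝ)| ≤ X) ∧ Polynomial.aeval z p = 0

/-- The numbers `x` are free over their exponentials and the constants `w`, in degree `δ` and over number fields of
degree at most `δ`: every polynomial relation of degree `≤ δ` over such a number field, between the `w_j`, the `x_i` and
the `exp(x_i)`, is an identity in the `x_i`. -/
def FreeOverExponentials (δ : ℕ) {q : ℕ} {ι : Type} (w : Fin q → ℂ) (x : ι → ℂ) : Prop :=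
  ∀ L : IntermediateField ℚ ℂ, FiniteDimensional ℚ L → Module.finrank ℚ L ≤ δ →
  ∀ P : MvPolynomial (Fin q ⊕ (ι ⊕ ι)) L, P.totalDegree ≤ δ →
  MvPolynomial.aeval (Sum.elim w (Sum.elim x fun i => Complex.exp (x i))) P = 0 →
  ∀ y : ι → ℂ, MvPolynomial.aeval (Sum.elim w (Sum.elim y fun i => Complex.exp (x i))) P = 0

open Classical in
/-- **Main result.** -/
theorem result (t q r m A : ℕ) : ∃ C : ℕ,
    (∀ (δ : ℕ) (ξ : Fin t → (Fin t → Fin r → ℂ) → ℂ) (H : Fin t → (Fin t → Fin r → ℂ) → ℕ),
      (∀ j β β', (∀ i, i < j → β i = β' i) → ξ j β = ξ j β' ∧ H j β = H j β') →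
      ∀ (w : Fin q → ℂ) (z : Fin t → Fin r → ℂ),
      ∃ S : Fin t → (Fin t → Fin r → ℂ) → Finset ℂ,
        (∀ j β, (S j β).card ≤ q + 2 * (t * r) + r * j + 2) ∧
        (∀ j β β', (∀ i, i < j → β i = β' i) → S j β = S j β') ∧
        ∀ β : Fin t → Fin r → ℂ,
          (∀ j, ((H j β : ℝ) + 2) ^ ((δ + 2) ^ C) ≤ ‖ξ j β‖) →
          (∀ j, IsBounded m (‖ξ j β‖ ^ A) (ξ j β)) →
          (∀ j, Function.Injective (β j)) →
          (∀ j i, β j i ∉ S j β ∧ β j i ≠ 0 ∧ IsBounded m (H j β) (β j i)) →
          ∀ x : Fin t → Fin r → ℂ, (∀ j i, Complex.exp (x j i) = (ξ j β + β j i) * Complex.exp (z j i)) →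
            FreeOverExponentials δ w fun p : Fin t × Fin r => x p.1 p.2) ∧
    (∀ (δ H : ℕ) (N : Fin t → (Fin t → ℕ) → ℕ),
      (∀ j h h', (∀ i, i < j → h i = h' i) → N j h = N j h') →
      (∀ j h, (H + 2) ^ ((δ + 2) ^ C) ≤ N j h) → ∀ (w : Fin q → ℂ) (z : Fin t → ℂ),
      ((Fintype.piFinset fun _ : Fin t => Finset.Icc 1 H).filter fun h =>
        ∃ x : Fin t → ℂ, (∀ j, Complex.exp (x j) = (N j h + h j) * Complex.exp (z j)) ∧
          ¬ FreeOverExponentials δ w x).card ≤ t * (q + 3 * t + 1) * H ^ (t - 1)) := by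
  obtain ⟨C₁, h1⟩ := Pool.Agent.Run7.h643.MW.sch t q r m A
  obtain ⟨C₂, h2⟩ := Pool.Agent.Run7.h643.MW.sch_integers t q
  refine ⟨C₁ + C₂, fun δ ξ H hdep w z => ?_, fun δ H N hN hNH w z => ?_⟩
  · obtain ⟨S, hS1, hS2, hS3⟩ := h1 δ ξ H hdep w z
    refine ⟨S, hS1, hS2, fun β hξ hHt hinj hβ x hx => ?_⟩
    refine hS3 β (fun j => ?_) hHt hinj (fun j i => ⟨(hβ j i).1, (hβ j i).2.1, ?_⟩) x hx
    · have hH : (1 : ℝ) ≤ (H j β : ℝ) + 2 := by linarith [(Nat.cast_nonneg (H j β) : (0 : ℝ) ≤ H j β)]
      exact (pow_le_pow_right₀ hH (Nat.pow_le_pow_right (by omega) (by omega))).trans (hξ j)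
    · obtain ⟨p, hp0, hpd, hpc, hpz⟩ := (hβ j i).2.2
      exact ⟨p, hp0, hpd, fun l => by exact_mod_cast hpc l, hpz⟩
  · refine h2 δ H N hN (fun j h => ?_) w z
    exact (Nat.pow_le_pow_right (by omega) (Nat.pow_le_pow_right (by omega) (by omega))).trans (hNH j h)

end Pool.Agent.Run7.h643.Kept.SchanuelWindows
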